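import Pool.Agent.Lib.helper14.HaarDec

set_option autoImplicit false

namespace Pool.Agent.Results.MP_4235af_lc.Both

open MeasureTheory

/-- The closed unit ball of `ℝⁿ`. -/
abbrev Disc (n : ℕ) : Type := Metric.closedBall (0 : EuclideanSpace ℝ (Fin n)) 1

/-- The unit sphere of `ℝⁿ⁺¹`. -/
abbrev Sph (n : ℕ) : Type := Metric.sphere (0 : EuclideanSpace ℝ (Fin (n + 1))) 1

/-- Orientation-preserving homeomorphisms of the ball: continuous bijections that are homotopic to
the identity through maps sending the boundary sphere into itself (degree one on the pair). -/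
def HBall (n : ℕ) : Set C(Disc n, Disc n) :=
  {f | Function.Bijective f ∧ ContinuousMap.HomotopicWith f (ContinuousMap.id (Disc n))
    fun g => ∀ x : Disc n, ‖(x : EuclideanSpace ℝ (Fin n))‖ = 1 →
      ‖(g x : EuclideanSpace ℝ (Fin n))‖ = 1}

/-- Orientation-preserving homeomorphisms of the sphere: continuous bijections homotopic to the
identity (degree one). -/
def HSph (n : ℕ) : Set C(Sph n, Sph n) :=
  {f | Function.Bijective f ∧ ContinuousMap.Homotopic f (ContinuousMap.id (Sph n))}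

/-- Christensen's Haar null sets in a group `G` of self-maps of `X`. -/
def HaarNull {X : Type} [TopologicalSpace X] {G : Set C(X, X)} (N : Set G) : Prop :=
  ∃ B : Set G, N ⊆ B ∧ MeasurableSet[borel G] B ∧
    ∃ μ : @Measure G (borel G), IsProbabilityMeasure μ ∧ ∀ g h : G,
      μ {x | ∃ b ∈ B, x.1 = g.1.comp (b.1.comp h.1)} = 0

/-- `G` is partitioned into a Haar null set and a meagre set. -/
def Splits {X : Type} [TopologicalSpace X] (G : Set C(X, X)) : Prop :=
  ∃ N M : Set G, HaarNull N ∧ IsMeagre M ∧ Disjoint N M ∧ N ∪ M = Set.univ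

theorem result : (∀ n : ℕ, 3 ≤ n → Splits (HBall n)) ∧ ∀ n : ℕ, 2 ≤ n → Splits (HSph n) := by
  refine ⟨fun n hn => ?_, fun n hn => ?_⟩
  · obtain ⟨M, N, h1, h0, h2, h3, h4⟩ :=
      H14Deg.ball_dec n (by omega) _ rfl (HBall n) rfl _ rfl
    exact ⟨N, M, ⟨N, subset_rfl, h3, h4⟩, h2, h0.symm, (Set.union_comm _ _).trans h1⟩
  · obtain ⟨M, N, h1, h0, h2, h3, h4⟩ :=
      H14Deg.sphere_dec n (by omega) _ rfl (HSph n) rfl _ rfl
    exact ⟨N, M, ⟨N, subset_rfl, h3, h4⟩, h2, h0.symm, (Set.union_comm _ _).trans h1⟩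

end Pool.Agent.Results.MP_4235af_lc.Both
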